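import Pool.Agent.TH225.MX.GFin

set_option autoImplicit false

/-!
Maxwell's bound fails in every even dimension `n ≥ 8`, and by an exponential factor: `n + 1` point
charges in `ℝ^n` can have `n.choose (n / 2)` nondegenerate critical points.
-/

namespace Pool.Agent.Results.MP_05ecc1_an.AllEvenDimensions

open Filter Topology

/-- The potential of the charges `q i` at the points `a i` of `ℝ^n`. -/
noncomputable def pot {n N : ℕ} (a : Fin N → EuclideanSpace ℝ (Fin n)) (q : Fin N → ℝ)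
    (z : EuclideanSpace ℝ (Fin n)) : ℝ :=
  ∑ i, q i / ‖z - a i‖ ^ (n - 2)

/-- A nondegenerate critical point: the differential of the potential vanishes there, and it is
differentiable there with a nondegenerate derivative (the Hessian). -/
def Nondegenerate {n N : ℕ} (a : Fin N → EuclideanSpace ℝ (Fin n)) (q : Fin N → ℝ)
    (x : EuclideanSpace ℝ (Fin n)) : Prop :=
  (∀ i, x ≠ a i) ∧ fderiv ℝ (pot a q) x = 0 ∧
    ∃ D : EuclideanSpace ℝ (Fin n) →L[ℝ] EuclideanSpace ℝ (Fin n) →L[ℝ] ℝ,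
      HasFDerivAt (fderiv ℝ (pot a q)) D x ∧ ∀ v, (∀ w, D v w = 0) → v = 0

/-- An isolated critical point. -/
def Isolated {n N : ℕ} (a : Fin N → EuclideanSpace ℝ (Fin n)) (q : Fin N → ℝ)
    (x : EuclideanSpace ℝ (Fin n)) : Prop :=
  (∀ i, x ≠ a i) ∧ fderiv ℝ (pot a q) x = 0 ∧
    ∃ ε > (0 : ℝ), ∀ y : EuclideanSpace ℝ (Fin n), dist y x < ε → y ≠ x → (∀ i, y ≠ a i) →
      fderiv ℝ (pot a q) y ≠ 0

theorem four_sq_lt (m : ℕ) (hm : 4 ≤ m) : (2 * m) ^ 2 < m.centralBinom := by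
  induction m, hm using Nat.le_induction with
  | base => decide
  | succ m hm ih =>
    have h1 := Nat.succ_mul_centralBinom_succ m
    have h2 : (m + 1) * (2 * (m + 1)) ^ 2 < (m + 1) * (m + 1).centralBinom := by
      rw [h1]
      have h3 : 2 * (2 * m + 1) * (2 * m) ^ 2 < 2 * (2 * m + 1) * m.centralBinom :=
        Nat.mul_lt_mul_of_pos_left ih (by omega)
      have h4 : (m + 1) * (2 * (m + 1)) ^ 2 ≤ 2 * (2 * m + 1) * (2 * m) ^ 2 := by
        obtain ⟨j, rfl⟩ := Nat.exists_eq_add_of_le' hm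
        ring_nf
        nlinarith
      exact lt_of_le_of_lt h4 h3
    exact Nat.lt_of_mul_lt_mul_left h2

/-- For every even `n ≥ 4` some `n + 1` nonzero charges at distinct points of `ℝ^n` have at least
`n.choose (n / 2) ≥ 2 ^ n / n` nondegenerate, isolated critical points; for `n ≥ 8` this exceeds
Maxwell's bound `n ^ 2`. Hence no bound `C (n + 1) ^ d` holds for the isolated critical points of
`n + 1` charges in all even dimensions. -/
theorem result :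
    (∀ n : ℕ, Even n → 4 ≤ n → ∃ (a : Fin (n + 1) → EuclideanSpace ℝ (Fin n))
      (q : Fin (n + 1) → ℝ) (S : Finset (EuclideanSpace ℝ (Fin n))),
      Function.Injective a ∧ (∀ i, q i ≠ 0) ∧ (∀ x ∈ S, Nondegenerate a q x ∧ Isolated a q x) ∧
      S.card = n.choose (n / 2) ∧ 2 ^ n ≤ n * S.card ∧ (8 ≤ n → (n + 1 - 1) ^ 2 < S.card)) ∧
    (∀ (C : ℝ) (d : ℕ), ∃ n0 : ℕ, ∀ n ≥ n0, Even n →
      ∃ (a : Fin (n + 1) → EuclideanSpace ℝ (Fin n))
      (q : Fin (n + 1) → ℝ) (S : Finset (EuclideanSpace ℝ (Fin n))),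
      Function.Injective a ∧ (∀ i, q i ≠ 0) ∧ (∀ x ∈ S, Nondegenerate a q x ∧ Isolated a q x) ∧
      C * ((n + 1 : ℕ) : ℝ) ^ d < S.card) := by
  have h1 : ∀ n : ℕ, Even n → 4 ≤ n → ∃ (a : Fin (n + 1) → EuclideanSpace ℝ (Fin n))
      (q : Fin (n + 1) → ℝ) (S : Finset (EuclideanSpace ℝ (Fin n))),
      Function.Injective a ∧ (∀ i, q i ≠ 0) ∧ (∀ x ∈ S, Nondegenerate a q x ∧ Isolated a q x) ∧
      S.card = n.choose (n / 2) ∧ 2 ^ n ≤ n * S.card ∧ (8 ≤ n → (n + 1 - 1) ^ 2 < S.card) := by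
    intro n hn h4
    obtain ⟨k, rfl⟩ : ∃ k, n = 2 * (k + 1) := by
      obtain ⟨m, hm⟩ := hn
      exact ⟨m - 1, by omega⟩
    have hk : 1 ≤ k := by omega
    have hcard : (Pool.Agent.TH225.MXG.crit k).card = (2 * (k + 1)).choose (2 * (k + 1) / 2) := by
      rw [Pool.Agent.TH225.MXG.crit_card, Nat.mul_div_cancel_left _ (by norm_num : 0 < 2)]
    have hcb : (Pool.Agent.TH225.MXG.crit k).card = (k + 1).centralBinom := by
      rw [Pool.Agent.TH225.MXG.crit_card, Nat.centralBinom_eq_two_mul_choose]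
    refine ⟨Pool.Agent.TH225.MXG.pos k, Pool.Agent.TH225.MXG.chg k, Pool.Agent.TH225.MXG.crit k,
      Pool.Agent.TH225.MXG.pos_inj hk, Pool.Agent.TH225.MXG.chg_ne hk, fun x hx => ?_, hcard,
      ?_, fun h8 => ?_⟩
    · have h := Pool.Agent.TH225.MXG.crit_spec hk x hx
      exact ⟨⟨h.1, h.2.1, h.2.2.1⟩, ⟨h.1, h.2.1, h.2.2.2⟩⟩
    · rw [hcb]
      have := Nat.four_pow_le_two_mul_self_mul_centralBinom (k + 1) (by omega)
      rw [pow_mul]
      exact this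
    · rw [hcb, Nat.add_sub_cancel]
      exact four_sq_lt (k + 1) (by omega)
  refine ⟨h1, fun C d => ?_⟩
  have h2 := tendsto_pow_const_div_const_pow_of_one_lt (d + 1) (one_lt_two : (1 : ℝ) < 2)
  have h3 : (0 : ℝ) < 1 / (|C| * 2 ^ d + 1) := by positivity
  obtain ⟨n0, hn0⟩ := (h2.eventually (gt_mem_nhds h3)).exists_forall_of_atTop
  refine ⟨max n0 4, fun n hn hev => ?_⟩
  have hn4 : 4 ≤ n := le_trans (le_max_right _ _) hn
  obtain ⟨a, q, S, ha, hq, hS, -, hpow, -⟩ := h1 n hev hn4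
  refine ⟨a, q, S, ha, hq, hS, ?_⟩
  have h5 := hn0 n (le_trans (le_max_left _ _) hn)
  have hnR : (4 : ℝ) ≤ n := by exact_mod_cast hn4
  have hpR : (2 : ℝ) ^ n ≤ n * S.card := by exact_mod_cast hpow
  have h6 : (0 : ℝ) < 2 ^ n := by positivity
  have h7 : (0 : ℝ) < |C| * 2 ^ d + 1 := by positivity
  rw [div_lt_div_iff₀ h6 h7, one_mul] at h5
  have h8 : ((n + 1 : ℕ) : ℝ) ^ d ≤ 2 ^ d * n ^ d := by
    rw [← mul_pow]
    push_cast
    exact pow_le_pow_left₀ (by linarith) (by linarith) d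
  have h9 : C * ((n + 1 : ℕ) : ℝ) ^ d ≤ |C| * (2 ^ d * n ^ d) := by
    have h10 : (0 : ℝ) ≤ ((n + 1 : ℕ) : ℝ) ^ d := by positivity
    calc C * ((n + 1 : ℕ) : ℝ) ^ d ≤ |C| * ((n + 1 : ℕ) : ℝ) ^ d :=
          mul_le_mul_of_nonneg_right (le_abs_self C) h10
      _ ≤ _ := mul_le_mul_of_nonneg_left h8 (abs_nonneg C)
  have h11 : (n : ℝ) * (C * ((n + 1 : ℕ) : ℝ) ^ d) < n * S.card := by
    have h12 : (n : ℝ) * (C * ((n + 1 : ℕ) : ℝ) ^ d) ≤ n * (|C| * (2 ^ d * n ^ d)) :=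
      mul_le_mul_of_nonneg_left h9 (by linarith)
    have h13 : (n : ℝ) * (|C| * (2 ^ d * n ^ d)) = n ^ (d + 1) * (|C| * 2 ^ d) := by
      rw [pow_succ]; ring
    have h14 : (0 : ℝ) ≤ (n : ℝ) ^ (d + 1) := by positivity
    nlinarith
  exact lt_of_mul_lt_mul_left h11 (by linarith)

end Pool.Agent.Results.MP_05ecc1_an.AllEvenDimensions
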